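import Pool.Agent.Zk18.Th.Stm2

/-!
Module LOWK: the first nonconstant coefficients of a curve through a point of transcendence degree `k`.
-/

set_option autoImplicit false

namespace Pool.Agent.Zk99.Th18

open MvPolynomial

section degree

variable {F : Type} [Field F] {σ : Type}

theorem totalDegree_pderiv_le (l : σ) (P : MvPolynomial σ F) :
    (pderiv l P).totalDegree ≤ P.totalDegree - 1 := by
  classical
  refine Finset.sup_le fun m hm => ?_
  have h1 : m + Finsupp.single l 1 ∈ P.support := by
    rw [mem_support_iff] at hm ⊢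
    rw [coeff_pderiv] at hm
    exact left_ne_zero_of_mul hm
  have h2 := le_totalDegree h1
  have h3 : ((m + Finsupp.single l 1).sum fun _ e => e) = (m.sum fun _ e => e) + 1 := by
    rw [Finsupp.sum_add_index' (fun _ => rfl) (fun _ _ _ => rfl), Finsupp.sum_single_index rfl]
  omega

end degree

section chain

variable {F M : Type} [Field F] [Field M] [Algebra F M] {k : ℕ}

/-- the coefficient at `X ^ (j + 1)` -/
theorem expand (y γ : Fin (k + 1) → M) (c R : Fin (k + 1) → Polynomial M) (j : ℕ)
    (hc : ∀ l, c l = Polynomial.C (y l) + Polynomial.X ^ (j + 1) * Polynomial.C (γ l) +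
      Polynomial.X ^ (j + 2) * R l) (Q : MvPolynomial (Fin (k + 1)) F) :
    ∃ S : Polynomial M, aeval c Q = Polynomial.C (aeval y Q) +
      Polynomial.X ^ (j + 1) * Polynomial.C (∑ l, aeval y (pderiv l Q) * γ l) +
        Polynomial.X ^ (j + 2) * S := by
  classical
  induction Q using MvPolynomial.induction_on with
  | C a =>
    refine ⟨0, ?_⟩
    simp only [pderiv_C, map_zero, zero_mul, Finset.sum_const_zero, mul_zero, add_zero]
    rw [MvPolynomial.algHom_C, MvPolynomial.algHom_C]
    rfl
  | add p q hp hq =>
    obtain ⟨S, hS⟩ := hp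
    obtain ⟨T, hT⟩ := hq
    refine ⟨S + T, ?_⟩
    simp only [map_add, add_mul, Finset.sum_add_distrib]
    rw [hS, hT]
    ring
  | mul_X p l hp =>
    obtain ⟨S, hS⟩ := hp
    have h1 : ∑ l', aeval y (pderiv l' (p * X l)) * γ l' =
        (∑ l', aeval y (pderiv l' p) * γ l') * y l + aeval y p * γ l := by
      rw [Finset.sum_mul]
      have h2 : ∀ l', aeval y (pderiv l' (p * X l)) * γ l' =
          aeval y (pderiv l' p) * γ l' * y l + (if l' = l then aeval y p * γ l else 0) := by
        intro l'
        rw [pderiv_mul, pderiv_X, map_add, map_mul, map_mul, aeval_X]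
        by_cases h : l' = l
        · subst h
          rw [Pi.single_eq_same, map_one, if_pos rfl]
          ring
        · rw [Pi.single_eq_of_ne' h, map_zero, if_neg h]
          ring
      rw [Finset.sum_congr rfl fun l' _ => h2 l', Finset.sum_add_distrib, Finset.sum_ite_eq' Finset.univ l,
        if_pos (Finset.mem_univ _)]
    rw [h1, map_mul, map_mul, aeval_X, aeval_X, hS, hc l]
    set D := ∑ l', aeval y (pderiv l' p) * γ l'
    refine ⟨S * (Polynomial.C (y l) + Polynomial.X ^ (j + 1) * Polynomial.C (γ l) +
      Polynomial.X ^ (j + 2) * R l) + (Polynomial.C (aeval y p) +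
        Polynomial.X ^ (j + 1) * Polynomial.C D) * R l +
        Polynomial.X ^ j * (Polynomial.C D * Polynomial.C (γ l)), ?_⟩
    simp only [map_add, map_mul]
    ring

/-- the chain rule along a line -/
theorem chain (e : Fin (k + 1) → Polynomial M) (Q : MvPolynomial (Fin (k + 1)) F) :
    Polynomial.derivative (aeval e Q) =
      ∑ l, aeval e (pderiv l Q) * Polynomial.derivative (e l) := by
  classical
  induction Q using MvPolynomial.induction_on with
  | C a =>
    simp only [pderiv_C, map_zero, zero_mul, Finset.sum_const_zero]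
    rw [MvPolynomial.algHom_C]
    exact Polynomial.derivative_C
  | add p q hp hq =>
    simp only [map_add, add_mul, Finset.sum_add_distrib]
    rw [hp, hq]
  | mul_X p l hp =>
    have h2 : ∀ l', aeval e (pderiv l' (p * X l)) * Polynomial.derivative (e l') =
        aeval e (pderiv l' p) * Polynomial.derivative (e l') * e l +
          (if l' = l then aeval e p * Polynomial.derivative (e l) else 0) := by
      intro l'
      rw [pderiv_mul, pderiv_X, map_add, map_mul, map_mul, aeval_X]
      by_cases h : l' = l
      · subst h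
        rw [Pi.single_eq_same, map_one, if_pos rfl]
        ring
      · rw [Pi.single_eq_of_ne' h, map_zero, if_neg h]
        ring
    rw [Finset.sum_congr rfl fun l' _ => h2 l', Finset.sum_add_distrib,
      Finset.sum_ite_eq' Finset.univ l, if_pos (Finset.mem_univ _), ← Finset.sum_mul, map_mul, aeval_X,
      Polynomial.derivative_mul, hp]

end chain

theorem t_LOWK : Pool.Agent.Zk18.Th.S_LOWK := by
  classical
  intro F M _ _ _ _ k y i hi hP c hc hrel j hj hlow hne
  by_cases hpair : ∃ l l', LinearIndependent F ![(c l).coeff j, (c l').coeff j]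
  · exact Or.inl hpair
  right
  push Not at hpair
  obtain ⟨l₀, hl₀⟩ := hne
  have hchar : CharZero M := charZero_of_injective_algebraMap (algebraMap F M).injective
  have hmul : ∀ l, ∃ a : F, a • (c l₀).coeff j = (c l).coeff j := by
    intro l
    have h1 := hpair l₀ l
    rw [LinearIndependent.pair_iff' hl₀] at h1
    push Not at h1
    exact h1
  choose a ha using hmul
  have ha0 : a ≠ 0 := by
    intro h
    apply hl₀
    rw [← ha l₀, h, Pi.zero_apply, zero_smul]
  -- the minimal relation
  let T : Set (MvPolynomial (Fin (k + 1)) F) := {P | P ≠ 0 ∧ aeval y P = 0}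
  obtain ⟨P, hPT, hmin⟩ := (measure (fun P : MvPolynomial (Fin (k + 1)) F => P.totalDegree)).wf.has_min T hP
  obtain ⟨hP0, hPy⟩ := hPT
  have hdeg : 0 < P.totalDegree := by
    by_contra h
    have h0 : P.totalDegree = 0 := by omega
    rw [totalDegree_eq_zero_iff_eq_C] at h0
    have h1 : coeff 0 P = 0 := by
      rw [h0, MvPolynomial.algHom_C] at hPy
      exact (map_eq_zero _).mp hPy
    rw [h1, map_zero] at h0
    exact hP0 h0
  obtain ⟨j, rfl⟩ : ∃ j', j = j' + 1 := ⟨j - 1, by omega⟩
  set γ : Fin (k + 1) → M := fun l => (c l).coeff (j + 1) with hγ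
  have hR : ∀ l, ∃ R, c l = Polynomial.C (y l) + Polynomial.X ^ (j + 1) * Polynomial.C (γ l) +
      Polynomial.X ^ (j + 2) * R := by
    intro l
    have h1 : Polynomial.X ^ (j + 2) ∣
        c l - (Polynomial.C (y l) + Polynomial.X ^ (j + 1) * Polynomial.C (γ l)) := by
      rw [Polynomial.X_pow_dvd_iff]
      intro d hd
      rw [Polynomial.coeff_sub, Polynomial.coeff_add, Polynomial.coeff_C,
        Polynomial.coeff_X_pow_mul', Polynomial.coeff_C]
      rcases Nat.eq_zero_or_pos d with rfl | hd0
      · simp [hc l]
      · rcases Nat.lt_or_ge d (j + 1) with h | h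
        · rw [hlow l d hd0 h, if_neg (by omega), if_neg (by omega)]
          simp
        · have : d = j + 1 := by omega
          subst this
          rw [if_neg (by omega), if_pos le_rfl, Nat.sub_self, if_pos rfl]
          simp [hγ]
    obtain ⟨R, hR⟩ := h1
    exact ⟨R, by rw [← hR]; ring⟩
  choose R hR using hR
  obtain ⟨S, hS⟩ := expand (F := F) y γ c R j hR P
  have hD : ∑ l, aeval y (pderiv l P) * γ l = 0 := by
    have h1 := congrArg (fun p => Polynomial.coeff p (j + 1)) hS
    rw [hrel P hPy, hPy, Polynomial.coeff_add, Polynomial.coeff_add, map_zero, Polynomial.coeff_zero,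
      Polynomial.coeff_X_pow_mul', Polynomial.coeff_X_pow_mul', if_pos le_rfl, if_neg (by omega),
      Nat.sub_self, Polynomial.coeff_C_zero] at h1
    simpa using h1.symm
  set P' : MvPolynomial (Fin (k + 1)) F := ∑ l, C (a l) * pderiv l P with hP'
  have hP'y : aeval y P' = 0 := by
    have h1 : aeval y P' * γ l₀ = ∑ l, aeval y (pderiv l P) * γ l := by
      rw [hP', map_sum, Finset.sum_mul]
      refine Finset.sum_congr rfl fun l _ => ?_
      rw [map_mul, MvPolynomial.algHom_C]
      have h2 : γ l = algebraMap F M (a l) * γ l₀ := by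
        rw [← Algebra.smul_def]
        exact (ha l).symm
      rw [h2]
      ring
    rw [hD] at h1
    exact (mul_eq_zero.mp h1).resolve_right hl₀
  have hP'0 : P' = 0 := by
    by_contra h
    have h1 := hmin P' ⟨h, hP'y⟩
    apply h1
    show P'.totalDegree < P.totalDegree
    have h2 : P'.totalDegree ≤ P.totalDegree - 1 := by
      rw [hP']
      refine totalDegree_finsetSum_le fun l _ => ?_
      refine (totalDegree_mul _ _).trans ?_
      rw [totalDegree_C, zero_add]
      exact totalDegree_pderiv_le l P
    omega
  set e : Fin (k + 1) → Polynomial M :=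
    fun l => Polynomial.C (y l) + Polynomial.C (algebraMap F M (a l)) * Polynomial.X with he
  have hderiv : Polynomial.derivative (aeval e P) = 0 := by
    rw [chain]
    have h1 : ∑ l, aeval e (pderiv l P) * Polynomial.derivative (e l) = aeval e P' := by
      rw [hP', map_sum]
      refine Finset.sum_congr rfl fun l _ => ?_
      rw [map_mul, MvPolynomial.algHom_C, he]
      simp only [Polynomial.derivative_add, Polynomial.derivative_C, Polynomial.derivative_mul,
        Polynomial.derivative_X, zero_mul, zero_add, mul_one]
      rw [mul_comm]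
      rfl
    rw [h1, hP'0, map_zero]
  have hev : (aeval e P).coeff 0 = 0 := by
    let ev : Polynomial M →ₐ[F] M := (Polynomial.aeval (0 : M)).restrictScalars F
    have hev : ∀ p : Polynomial M, ev p = p.coeff 0 := by
      intro p
      have h1 : ev p = Polynomial.aeval (0 : M) p := rfl
      rw [h1, Polynomial.coeff_zero_eq_aeval_zero]
    rw [← hev, MvPolynomial.comp_aeval_apply]
    have h1 : (fun l => ev (e l)) = y := by
      funext l
      rw [hev]
      simp [he]
    rw [h1]
    exact hPy
  have hezero : aeval e P = 0 := by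
    have h1 := Polynomial.derivative_eq_zero.mp hderiv
    rw [Polynomial.natDegree_eq_zero] at h1
    obtain ⟨b, hb⟩ := h1
    rw [← hb, Polynomial.coeff_C_zero] at hev
    rw [← hb, hev, map_zero]
  refine ⟨a, ha0, fun Q hQ => ?_⟩
  exact Pool.Agent.Zk18.Dg.curve_transfer y i hi Q P hP0 hQ e (by intro l; simp [he]) hezero

end Pool.Agent.Zk99.Th18
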